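import Pool.Agent.H705.FP.Stm

set_option autoImplicit false

/-! Hoeffding for the sum of independent cosines with small means (project FP; edited from
`Pool/Agent/H25/RO/T_HOE.lean`). -/

namespace Pool.Agent.H722.FP.HOU

open MeasureTheory ProbabilityTheory Filter Topology Finset
open Pool.Agent.H705.FP
open scoped NNReal

/-- one wave as a function of the random number -/
noncomputable def wu (a β g w : ℕ → ℝ) (t : ℝ) (n : ℕ) (y : ℝ) : ℝ :=
  a n * Real.cos ((g n + w n * y) * t + β n)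

theorem wu_cont (a β g w : ℕ → ℝ) (t : ℝ) (n : ℕ) : Continuous (wu a β g w t n) := by
  unfold wu
  fun_prop

theorem mean_small (a β g w : ℕ → ℝ) (t : ℝ) (n : ℕ) (ha : 0 ≤ a n) (hw : 0 < w n) (ht : 0 < t) :
    |∫ y in Set.Icc (0 : ℝ) 1, wu a β g w t n y| ≤ 2 * a n / (w n * t) := by
  have hwt : 0 < w n * t := mul_pos hw ht
  rw [integral_Icc_eq_integral_Ioc, ← intervalIntegral.integral_of_le zero_le_one]
  have h1 : ∀ y : ℝ, wu a β g w t n y =
      a n * Real.cos ((g n * t + β n) + (w n * t) * y) := by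
    intro y
    unfold wu
    congr 2
    ring
  have h2 : ∫ y in (0 : ℝ)..1, wu a β g w t n y =
      ∫ y in (0 : ℝ)..1, a n * Real.cos ((g n * t + β n) + (w n * t) * y) :=
    intervalIntegral.integral_congr fun y _ => h1 y
  rw [h2, intervalIntegral.integral_const_mul]
  have h3 := intervalIntegral.integral_comp_add_mul (a := 0) (b := 1) Real.cos hwt.ne'
    (g n * t + β n)
  rw [h3, integral_cos, smul_eq_mul, abs_mul, abs_mul, abs_of_nonneg ha,
    abs_of_pos (inv_pos.mpr hwt)]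
  have h4 : |Real.sin (g n * t + β n + w n * t * 1) - Real.sin (g n * t + β n + w n * t * 0)| ≤
      2 := by
    have h5 := Real.abs_sin_le_one (g n * t + β n + w n * t * 1)
    have h6 := Real.abs_sin_le_one (g n * t + β n + w n * t * 0)
    rw [abs_le] at h5 h6 ⊢
    constructor <;> linarith
  calc a n * ((w n * t)⁻¹ *
        |Real.sin (g n * t + β n + w n * t * 1) - Real.sin (g n * t + β n + w n * t * 0)|)
      ≤ a n * ((w n * t)⁻¹ * 2) := by
        apply mul_le_mul_of_nonneg_left _ ha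
        exact mul_le_mul_of_nonneg_left h4 (inv_pos.mpr hwt).le
    _ = 2 * a n / (w n * t) := by
        rw [div_eq_mul_inv]
        ring

theorem T_HOU : P_HOU := by
  intro Ω _ P U hU a β g w ha hw t M M' lam v ht hlam hv hsum
  have hprob : IsProbabilityMeasure P := hU.prob
  obtain ⟨Z, hZ⟩ : ∃ Z : ℕ → Ω → ℝ, Z = fun n ω => wu a β g w t n (U n ω) := ⟨_, rfl⟩
  have hZm : ∀ n, Measurable (Z n) := by
    intro n
    rw [hZ]
    exact (wu_cont a β g w t n).measurable.comp (hU.meas n)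
  obtain ⟨μ, hμ⟩ : ∃ μ : ℕ → ℝ, ∀ n, μ n = ∫ ω, Z n ω ∂P := ⟨fun n => ∫ ω, Z n ω ∂P, fun _ => rfl⟩
  have hmean : ∀ n, |μ n| ≤ 2 * a n / (w n * t) := by
    intro n
    have h1 := integral_map (μ := P) (hU.meas n).aemeasurable
      (wu_cont a β g w t n).aestronglyMeasurable
    rw [hU.law n] at h1
    have h2 : μ n = ∫ y in Set.Icc (0 : ℝ) 1, wu a β g w t n y := by
      rw [hμ, h1, hZ]
    rw [h2]
    exact mean_small a β g w t n (ha n) (hw n) ht
  have hbd : ∀ n ω, Z n ω ∈ Set.Icc (-a n) (a n) := by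
    intro n ω
    rw [hZ]
    show -a n ≤ a n * Real.cos _ ∧ a n * Real.cos _ ≤ a n
    have h1 := Real.neg_one_le_cos ((g n + w n * U n ω) * t + β n)
    have h2 := Real.cos_le_one ((g n + w n * U n ω) * t + β n)
    constructor <;> nlinarith [ha n]
  obtain ⟨Y, hY⟩ : ∃ Y : ℕ → Ω → ℝ, Y = fun n ω => Z n ω - μ n := ⟨_, rfl⟩
  have hind : iIndepFun Y P := by
    rw [hY, hZ]
    exact hU.indep.comp (fun n y => wu a β g w t n y - μ n) fun n =>
      ((wu_cont a β g w t n).sub continuous_const).measurable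
  have hsub : ∀ n, HasSubgaussianMGF (Y n) ((‖a n - -a n‖₊ / 2) ^ 2) P := by
    intro n
    have h1 := hasSubgaussianMGF_of_mem_Icc (μ := P) (hZm n).aemeasurable
      (Eventually.of_forall (hbd n))
    rw [← hμ] at h1
    rw [hY]
    exact h1
  have hS0 := HasSubgaussianMGF.sum_of_iIndepFun hind (s := Ico M M') fun n _ => hsub n
  have hc : ((∑ n ∈ Ico M M', (‖a n - -a n‖₊ / 2) ^ 2 : ℝ≥0) : ℝ) ≤ v := by
    refine le_trans (le_of_eq ?_) hsum
    rw [NNReal.coe_sum]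
    refine Finset.sum_congr rfl fun n _ => ?_
    push_cast
    rw [sub_neg_eq_add, Real.norm_eq_abs, abs_of_nonneg (by linarith [ha n])]
    ring
  obtain ⟨v', hv'⟩ : ∃ v' : ℝ≥0, (v' : ℝ) = v := ⟨⟨v, hv.le⟩, rfl⟩
  have hS : HasSubgaussianMGF (fun ω => ∑ n ∈ Ico M M', Y n ω) v' P := by
    refine ⟨hS0.integrable_exp_mul, fun s => (hS0.mgf_le s).trans (Real.exp_le_exp.mpr ?_)⟩
    have h1 : ((∑ n ∈ Ico M M', (‖a n - -a n‖₊ / 2) ^ 2 : ℝ≥0) : ℝ) * s ^ 2 ≤ v * s ^ 2 :=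
      mul_le_mul_of_nonneg_right hc (sq_nonneg s)
    rw [hv']
    linarith
  have e1 := hS.measure_ge_le hlam.le
  have e2 := hS.neg.measure_ge_le hlam.le
  have hexp : Real.exp (-lam ^ 2 / (2 * (v' : ℝ))) = Real.exp (-(lam ^ 2 / (2 * v))) := by
    rw [hv', neg_div]
  rw [hexp] at e1 e2
  have hsubset : {ω | lam + ∑ n ∈ Ico M M', 2 * a n / (w n * t) ≤
      |∑ n ∈ Ico M M', wv a β (om g w fun n => U n ω) n t|} ⊆
      {ω | lam ≤ ∑ n ∈ Ico M M', Y n ω} ∪
        {ω | lam ≤ (-(fun ω => ∑ n ∈ Ico M M', Y n ω)) ω} := by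
    intro ω hω
    have h0 : lam + ∑ n ∈ Ico M M', 2 * a n / (w n * t) ≤ |∑ n ∈ Ico M M', Z n ω| := by
      rw [hZ]
      exact hω
    have h1 : ∑ n ∈ Ico M M', Z n ω = ∑ n ∈ Ico M M', Y n ω + ∑ n ∈ Ico M M', μ n := by
      rw [hY, ← Finset.sum_add_distrib]
      refine Finset.sum_congr rfl fun n _ => ?_
      show Z n ω = Z n ω - μ n + μ n
      ring
    have h2 : |∑ n ∈ Ico M M', μ n| ≤ ∑ n ∈ Ico M M', 2 * a n / (w n * t) :=
      (Finset.abs_sum_le_sum_abs _ _).trans (Finset.sum_le_sum fun n _ => hmean n)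
    have h3 : |∑ n ∈ Ico M M', Z n ω| ≤ |∑ n ∈ Ico M M', Y n ω| + |∑ n ∈ Ico M M', μ n| := by
      rw [h1]
      exact abs_add_le _ _
    have h4 : lam ≤ |∑ n ∈ Ico M M', Y n ω| := by linarith
    rcases le_abs.mp h4 with h5 | h5
    · exact Or.inl h5
    · exact Or.inr h5
  refine (measure_mono hsubset).trans ((measure_union_le _ _).trans ?_)
  rw [two_mul, ENNReal.ofReal_add (Real.exp_pos _).le (Real.exp_pos _).le]
  refine add_le_add ?_ ?_
  · rw [← ENNReal.ofReal_toReal (measure_ne_top P {ω | lam ≤ ∑ n ∈ Ico M M', Y n ω})]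
    exact ENNReal.ofReal_le_ofReal e1
  · rw [← ENNReal.ofReal_toReal
      (measure_ne_top P {ω | lam ≤ (-(fun ω => ∑ n ∈ Ico M M', Y n ω)) ω})]
    exact ENNReal.ofReal_le_ofReal e2

end Pool.Agent.H722.FP.HOU
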