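import Pool.Agent.H919.FP.Ring

/-!
# FP/B2: regular sequence on flat algebras over `B`
-/

namespace Pool.Agent.H722.FP

open Pool.Agent.H919.FP

theorem poly_reg (N : ℕ) (a b : P2)
    (h : (MvPolynomial.X 1 : P2) ^ N * a = (MvPolynomial.X 0 : P2) ^ N * b) :
    ∃ c : P2, a = (MvPolynomial.X 0 : P2) ^ N * c ∧ b = (MvPolynomial.X 1 : P2) ^ N * c := by
  have hp0 : Prime (MvPolynomial.X 0 : P2) := MvPolynomial.X_prime
  have hnd : ¬ (MvPolynomial.X 0 : P2) ∣ (MvPolynomial.X 1 : P2) ^ N := by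
    intro hd
    have := hp0.dvd_of_dvd_pow hd
    rw [MvPolynomial.X_dvd_X] at this
    exact absurd this (by decide)
  have hdvd : (MvPolynomial.X 0 : P2) ^ N ∣ a := by
    have h1 : (MvPolynomial.X 0 : P2) ^ N ∣ (MvPolynomial.X 1 : P2) ^ N * a := ⟨b, h⟩
    exact hp0.pow_dvd_of_dvd_mul_left N hnd h1
  obtain ⟨c, hc⟩ := hdvd
  refine ⟨c, hc, ?_⟩
  have hne : (MvPolynomial.X 0 : P2) ^ N ≠ 0 := pow_ne_zero _ hp0.ne_zero
  apply mul_left_cancel₀ hne
  rw [← h, hc]
  ring

theorem flat_nzd {R C : Type*} [CommRing R] [IsDomain R] [CommRing C] [Algebra R C]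
    [Module.Flat R C] (x : R) (hne0 : x ≠ 0) (c : C) (hc : algebraMap R C x * c = 0) : c = 0 := by
  have h0 : ∑ i : Fin 1, (fun _ => x) i • (fun _ => c) i = 0 := by
    simp only [Finset.univ_unique, Finset.sum_const, Finset.card_singleton, one_smul]
    rw [Algebra.smul_def]; exact hc
  obtain ⟨k, a, y, h1, h2⟩ := Module.Flat.isTrivialRelation_of_sum_smul_eq_zero (R := R) (M := C) h0
  have h3 : ∀ j, a 0 j = 0 := by
    intro j
    have := h2 j
    simp only [Finset.univ_unique, Fin.default_eq_zero, Finset.sum_singleton] at this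
    exact (mul_eq_zero.mp this).resolve_left hne0
  rw [show c = (fun _ : Fin 1 => c) 0 from rfl, h1 0]
  simp [h3]

theorem flat_reg {R C : Type*} [CommRing R] [CommRing C] [Algebra R C]
    [Module.Flat R C] (x y : R) (hxy : ∀ a b : R, y * a = x * b → ∃ c, a = x * c ∧ b = y * c)
    (a b : C) (hab : algebraMap R C y * a = algebraMap R C x * b) :
    ∃ c : C, a = algebraMap R C x * c ∧ b = algebraMap R C y * c := by
  have h0 : ∑ i : Fin 2, (![y, - x] : Fin 2 → R) i • (![a, b] : Fin 2 → C) i = 0 := by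
    simp only [Fin.sum_univ_two, Matrix.cons_val_zero, Matrix.cons_val_one]
    rw [Algebra.smul_def, Algebra.smul_def, map_neg, hab]
    ring
  obtain ⟨k, α, z, h1, h2⟩ := Module.Flat.isTrivialRelation_of_sum_smul_eq_zero (R := R) (M := C) h0
  have h3 : ∀ j, ∃ c : R, α 0 j = x * c ∧ α 1 j = y * c := by
    intro j
    have := h2 j
    simp only [Fin.sum_univ_two, Matrix.cons_val_zero, Matrix.cons_val_one] at this
    apply hxy
    linear_combination this
  choose c hc0 hc1 using h3
  refine ⟨∑ j, c j • z j, ?_, ?_⟩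
  · have : a = ∑ j, α 0 j • z j := h1 0
    rw [this, Finset.mul_sum]
    refine Finset.sum_congr rfl fun j _ => ?_
    rw [hc0 j, Algebra.smul_def, Algebra.smul_def, map_mul]
    ring
  · have : b = ∑ j, α 1 j • z j := h1 1
    rw [this, Finset.mul_sum]
    refine Finset.sum_congr rfl fun j _ => ?_
    rw [hc1 j, Algebra.smul_def, Algebra.smul_def, map_mul]
    ring

theorem t_B2 : Pool.Agent.H919.FP.S_B1 → Pool.Agent.H919.FP.S_B2 := by
  intro hB1 C _ _ _
  have hfree : Module.Free P2 B := hB1.2.2.2.2.2.1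
  let _ : Algebra P2 C := ((algebraMap B C).comp (algebraMap P2 B)).toAlgebra
  have _ : IsScalarTower P2 B C := IsScalarTower.of_algebraMap_eq (fun _ => rfl)
  have _ : Module.Flat P2 B := inferInstance
  have _ : Module.Flat P2 C := Module.Flat.trans P2 B C
  have hx : algebraMap P2 C (MvPolynomial.X 0) = algebraMap B C (pB 0) := rfl
  have hy : algebraMap P2 C (MvPolynomial.X 1) = algebraMap B C (pB 1) := rfl
  have hne0 : (MvPolynomial.X 0 : P2) ≠ 0 := MvPolynomial.X_ne_zero _
  constructor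
  · intro c hc
    exact flat_nzd (R := P2) (MvPolynomial.X 0) hne0 c hc
  · intro N a b hab
    have h := flat_reg (R := P2) (C := C) (MvPolynomial.X 0 ^ N) (MvPolynomial.X 1 ^ N)
      (fun a b h => poly_reg N a b h) a b
      (by rw [map_pow, map_pow, hx, hy]; exact hab)
    rw [map_pow, map_pow, hx, hy] at h
    exact h

end Pool.Agent.H722.FP
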